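import Pool.Agent.X220.FP.Cor
import Pool.Agent.X220.FP.Alg

/-!
# Almost prime pairs on the quadratic relation `a p ^ 2 + b p + e = d q`, with prescribed fractional parts

Let `a, d > 0`, let `b ^ 2 - 4 a e` be no square, and let `x, y` be integers with `x y` prime to `6 a d` and
`a x ^ 2 + b x + e = d y`. Then `p(n) = d n + x` and `q(n) = a d n ^ 2 + (2 a x + b) n + y` satisfy
`a p(n) ^ 2 + b p(n) + e = d q(n)`. Let `P_1, …, P_s` be real polynomials of degree at most `k ≥ 1` whose vector of the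
coefficients of `x ^ k` is of finite type: the distance of `h_1 α_1 + … + h_s α_s` to the nearest integer is at least
`c₀ / |h| ^ τ` for all nonzero integral vectors `h` (for example `α_1, …, α_s` are algebraic and `1, α_1, …, α_s` are linearly
independent over the rational numbers). We consider `p(n), q(n)` for the integers `n` of an ARBITRARY short interval
`(M, M + H]` for which all the fractional parts of `P_i(n) - u_i` are less than `ρ_i`, where the `ρ_i` may be as small as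
`H ^ (-δ)`.
* If `M + H ≤ H ^ B`, where `B` is arbitrary, the number of the `n` for which `p(n)` and `q(n)` have a bounded number of prime
  factors, all greater than `H ^ δ`, has the expected order of magnitude.
* The number of the `n` for which both of them are primes is at most of this order.
* The number of the `n` for which they have no prime factor up to `z` is given by an asymptotic formula.

All this is uniform in the polynomials `P_i`, in `M`, and in the boxes. The proof combines the fundamental lemma of the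
sieve, Mertens' theorem for polynomials (in the starting files), Weyl's inequality, and Liouville's inequality for norms.
-/

set_option autoImplicit false

namespace Pool.Agent.Results.MP_f37147_nt.FractionalParts

open Finset Polynomial

/-- the vector `α` is of finite type, with the constants `c₀` and `τ` -/
def FiniteType {s : ℕ} (c₀ : ℝ) (τ : ℕ) (α : Fin s → ℝ) : Prop :=
  ∀ h : Fin s → ℤ, h ≠ 0 → ∀ a : ℤ, c₀ ≤ (∑ i, |(h i : ℝ)|) ^ τ * |(∑ i, h i * α i) - a|

/-- all the fractional parts of `P_i(n) - u_i` are less than `ρ_i` -/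
def InBox {s : ℕ} (P : Fin s → ℝ[X]) (u ρ : Fin s → ℝ) (n : ℕ) : Prop :=
  ∀ i, Int.fract ((P i).eval (n : ℝ) - u i) < ρ i

/-- `m ≠ 0` has at most `r` prime factors, counted with multiplicity, all of them greater than `x`. -/
def AlmostPrime (r : ℕ) (x : ℝ) (m : ℕ) : Prop :=
  m ≠ 0 ∧ m.primeFactorsList.length ≤ r ∧ ∀ q : ℕ, q.Prime → q ∣ m → x < q

/-- the hypotheses of the problem on the coefficients and on the solution `(x, y)` -/
def Adm (a b e d x y : ℤ) : Prop :=
  0 < a ∧ 0 < d ∧ ¬ IsSquare (b ^ 2 - 4 * a * e) ∧ IsCoprime (x * y) (6 * a * d) ∧ a * x ^ 2 + b * x + e = d * y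

/-- the number `p(n) = d n + x` -/
def pp (d x : ℤ) (n : ℕ) : ℤ := d * n + x

/-- the number `q(n) = a d n ^ 2 + (2 a x + b) n + y` -/
def qq (a b d x y : ℤ) (n : ℕ) : ℤ := a * d * n ^ 2 + (2 * a * x + b) * n + y

/-- the number of the `n` in `(M, M + H]` with the property `R` for which `p(n)` and `q(n)` are almost primes -/
noncomputable def almost (a b d x y : ℤ) (r : ℕ) (w : ℝ) (M H : ℕ) (R : ℕ → Prop) : ℕ :=
  Set.ncard {n : ℕ | M < n ∧ n ≤ M + H ∧ R n ∧ AlmostPrime r w (pp d x n).natAbs ∧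
    AlmostPrime r w (qq a b d x y n).natAbs}

/-- the number of the `n` in `(M, M + H]` with the property `R` for which `p(n)` and `q(n)` are primes -/
noncomputable def primes (a b d x y : ℤ) (M H : ℕ) (R : ℕ → Prop) : ℕ :=
  Set.ncard {n : ℕ | M < n ∧ n ≤ M + H ∧ R n ∧ (pp d x n).natAbs.Prime ∧ (qq a b d x y n).natAbs.Prime}

/-- the number of the `n` in `(M, M + H]` with the property `R` for which `p(n)` and `q(n)` have no prime factor up to `z` -/
noncomputable def rough (a b d x y : ℤ) (z M H : ℕ) (R : ℕ → Prop) : ℕ :=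
  Set.ncard {n : ℕ | M < n ∧ n ≤ M + H ∧ R n ∧ ∀ l : ℕ, l.Prime → l ≤ z →
    ¬ l ∣ (pp d x n).natAbs ∧ ¬ l ∣ (qq a b d x y n).natAbs}

/-- the product over the primes `l ≤ z` of `1 - ν(l) / l`, where `ν(l)` is the number of the residues `n` modulo `l` for
which `p(n)` or `q(n)` is divisible by `l` -/
noncomputable def V (a b d x y : ℤ) (z : ℕ) : ℝ :=
  ∏ l ∈ (Icc 1 z).filter Nat.Prime,
    (1 - (Set.ncard {n : ℕ | n < l ∧ (l ∣ (pp d x n).natAbs ∨ l ∣ (qq a b d x y n).natAbs)} : ℝ) / l)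

/-- the bounds for the interval `(M, M + H]` and the property `R`, with the expected number `N` -/
def Bounds (a b d x y : ℤ) (T r : ℕ) (δ c C : ℝ) (B M H : ℕ) (R : ℕ → Prop) (N : ℝ) : Prop :=
  (M + H ≤ T ^ B → c * N / Real.log T ^ 2 ≤ almost a b d x y r ((T : ℝ) ^ δ) M H R) ∧
    (primes a b d x y M H R : ℝ) ≤ C * N / Real.log T ^ 2

/-- the asymptotic formula for the interval `(M, M + H]` and the property `R`, with the expected number `N` -/
def Rough (a b d x y : ℤ) (η : ℝ) (M H z : ℕ) (R : ℕ → Prop) (N : ℝ) : Prop :=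
  |(rough a b d x y z M H R : ℝ) - N * V a b d x y z| ≤ η * (N * V a b d x y z)

/-- the polynomials -/
noncomputable def f (a b d x y : ℤ) : Fin 2 → ℤ[X] :=
  ![C d * X + C x, C (a * d) * X ^ 2 + C (2 * a * x + b) * X + C y]

/-- the values -/
def F (a b d x y : ℤ) : Fin 2 → ℕ → ℕ := ![fun n => (pp d x n).natAbs, fun n => (qq a b d x y n).natAbs]

lemma f_sys {a b e d x y : ℤ} (h : Adm a b e d x y) : Pool.Agent.X55.Fam.Sys 2 (f a b d x y) := by
  obtain ⟨ha, hd, hsq, hcop, heq⟩ := h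
  have hu : ∀ m : ℤ, m ∣ x * y → m ∣ 6 * a * d → IsUnit m := fun m h1 h2 => hcop.isUnit_of_dvd' h1 h2
  have hdeg0 : (C d * X + C x : ℤ[X]).natDegree = 1 := natDegree_linear hd.ne'
  have had : a * d ≠ 0 := (mul_pos ha hd).ne'
  have hdeg1 : (C (a * d) * X ^ 2 + C (2 * a * x + b) * X + C y : ℤ[X]).natDegree = 2 := natDegree_quadratic had
  have hna : ¬ Associated (C d * X + C x : ℤ[X]) (C (a * d) * X ^ 2 + C (2 * a * x + b) * X + C y) := by
    intro h
    have h1 := natDegree_eq_of_degree_eq (degree_eq_degree_of_associated h)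
    rw [hdeg0, hdeg1] at h1
    omega
  refine Pool.Agent.X55.Fam.Sys.mk' (fun i => ?_) (fun i => ?_) (fun i j hij => ?_) 3 ?_ (fun q hq hq3 => ?_)
  · fin_cases i
    · refine Pool.Agent.X55.Fam.lin_irr d x hd.ne' fun m h1 h2 => hu m (h2.mul_right y) (h1.mul_left _)
    · refine Pool.Agent.X55.Fam.quad_irr (a * d) (2 * a * x + b) y had (fun m h1 _ h3 => hu m (h3.mul_left x) ?_) ?_
      · rw [mul_assoc]
        exact h1.mul_left 6
      · have e1 : (2 * a * x + b) ^ 2 - 4 * (a * d) * y = b ^ 2 - 4 * a * e := by linear_combination (4 * a) * heq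
        rw [e1]
        exact hsq
  · fin_cases i
    · show 0 < (C d * X + C x : ℤ[X]).natDegree
      rw [hdeg0]
      norm_num
    · show 0 < (C (a * d) * X ^ 2 + C (2 * a * x + b) * X + C y : ℤ[X]).natDegree
      rw [hdeg1]
      norm_num
  · fin_cases i <;> fin_cases j
    · exact absurd rfl hij
    · exact hna
    · exact fun h => hna h.symm
    · exact absurd rfl hij
  · rw [Fin.sum_univ_two]
    show (C d * X + C x : ℤ[X]).natDegree + (C (a * d) * X ^ 2 + C (2 * a * x + b) * X + C y : ℤ[X]).natDegree ≤ 3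
    rw [hdeg0, hdeg1]
  · have hq6 : (q : ℤ) ∣ 6 * a * d := by
      have h1 : (q : ℤ) ∣ 6 := by
        have : q = 2 ∨ q = 3 := by
          have := hq.two_le
          omega
        rcases this with rfl | rfl <;> norm_num
      rw [mul_assoc]
      exact h1.mul_right _
    have hnu : ¬ IsUnit (q : ℤ) := by
      intro h
      rw [Int.isUnit_iff] at h
      have := hq.two_le
      omega
    refine ⟨0, fun i hi => ?_⟩
    fin_cases i
    · have h1 : (q : ℤ) ∣ (C d * X + C x : ℤ[X]).eval ((0 : ℕ) : ℤ) := hi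
      simp at h1
      exact hnu (hu _ (h1.mul_right y) hq6)
    · have h1 : (q : ℤ) ∣ (C (a * d) * X ^ 2 + C (2 * a * x + b) * X + C y : ℤ[X]).eval ((0 : ℕ) : ℤ) := hi
      simp at h1
      exact hnu (hu _ (h1.mul_left x) hq6)

lemma hF (a b d x y : ℤ) (i : Fin 2) (n : ℕ) : ((f a b d x y i).eval (n : ℤ)).natAbs = F a b d x y i n := by
  fin_cases i
  · show ((C d * X + C x : ℤ[X]).eval (n : ℤ)).natAbs = (pp d x n).natAbs
    simp only [eval_add, eval_mul, eval_C, eval_X, pp]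
  · show ((C (a * d) * X ^ 2 + C (2 * a * x + b) * X + C y : ℤ[X]).eval (n : ℤ)).natAbs = (qq a b d x y n).natAbs
    simp only [eval_add, eval_mul, eval_C, eval_X, eval_pow, qq]

lemma conv {a b d x y : ℤ} {P r : ℕ} {δ c C : ℝ} {B M H : ℕ} {R : ℕ → Prop} {N : ℝ}
    (h : Pool.Agent.X55.Fam.Both (F a b d x y) P r δ c C B M H R N) : Bounds a b d x y P r δ c C B M H R N := by
  unfold Pool.Agent.X55.Fam.Both at h
  simpa [Bounds, almost, primes, AlmostPrime, F, Pool.Agent.X55.Fam.Good, Fin.forall_fin_succ] using h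

lemma convA {a b d x y : ℤ} {η : ℝ} {M H z : ℕ} {R : ℕ → Prop} {N : ℝ}
    (h : Pool.Agent.X55.Fam.Asym (F a b d x y) η M H z R N) : Rough a b d x y η M H z R N := by
  unfold Pool.Agent.X55.Fam.Asym at h
  simpa [Rough, rough, V, F, Fin.forall_fin_succ, Fin.exists_fin_succ] using h

theorem result :
    (∀ a b e d x y : ℤ, Adm a b e d x y →
    -- the relation
    (∀ n : ℕ, a * pp d x n ^ 2 + b * pp d x n + e = d * qq a b d x y n) ∧
    ∀ (s k τ : ℕ) (c₀ : ℝ), 1 ≤ k → 0 < c₀ →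
    (∀ B : ℕ, ∃ (r : ℕ) (δ c C : ℝ) (H₀ : ℕ), 0 < δ ∧ 0 < c ∧ 0 < C ∧
      ∀ H : ℕ, H₀ ≤ H → ∀ P : Fin s → ℝ[X], (∀ i, (P i).natDegree ≤ k) → FiniteType c₀ τ (fun i => (P i).coeff k) →
      ∀ u ρ : Fin s → ℝ, (∀ i, (H : ℝ) ^ (-δ) ≤ ρ i ∧ ρ i ≤ 1) → ∀ M : ℕ,
      Bounds a b d x y H r δ c C B M H (InBox P u ρ) (H * ∏ i, ρ i)) ∧
    (∀ η : ℝ, 0 < η → ∃ (δ : ℝ) (H₀ : ℕ), 0 < δ ∧
      ∀ H : ℕ, H₀ ≤ H → ∀ P : Fin s → ℝ[X], (∀ i, (P i).natDegree ≤ k) → FiniteType c₀ τ (fun i => (P i).coeff k) →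
      ∀ u ρ : Fin s → ℝ, (∀ i, (H : ℝ) ^ (-δ) ≤ ρ i ∧ ρ i ≤ 1) → ∀ M z : ℕ, 3 ≤ z → (z : ℝ) ≤ (H : ℝ) ^ δ →
      Rough a b d x y η M H z (InBox P u ρ) (H * ∏ i, ρ i))) ∧
    -- algebraic numbers
    (∀ (s : ℕ) (α : Fin s → ℝ), (∀ i, IsAlgebraic ℚ (α i)) →
      (∀ (h : Fin s → ℤ) (a : ℤ), ∑ i, (h i : ℝ) * α i = a → h = 0) →
      ∃ (c₀ : ℝ) (τ : ℕ), 0 < c₀ ∧ FiniteType c₀ τ α) := by
  refine ⟨fun a b e d x y hadm => ⟨fun n => ?_, fun s k τ c₀ hk hc₀ => ⟨?_, ?_⟩⟩,
    fun s α hα hind => Pool.Agent.X220.FP.liouville_vec s α hα hind⟩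
  · simp only [pp, qq]
    linear_combination hadm.2.2.2.2
  · intro B
    obtain ⟨r, δ, c, C, H₀, hδ, hc, hC, h⟩ :=
      Pool.Agent.X220.FP.fp_both s k τ hk c₀ hc₀ (f_sys hadm) (F a b d x y) (hF a b d x y) B
    exact ⟨r, δ, c, C, H₀, hδ, hc, hC, fun H hH P hP hFT u ρ hρ M => conv (h H hH P hP hFT u ρ hρ M)⟩
  · intro η hη
    obtain ⟨δ, H₀, hδ, h⟩ :=
      Pool.Agent.X220.FP.fp_asym s k τ hk c₀ hc₀ (f_sys hadm) (F a b d x y) (hF a b d x y) η hη
    exact ⟨δ, H₀, hδ, fun H hH P hP hFT u ρ hρ M z hz hzH => convA (h H hH P hP hFT u ρ hρ M z hz hzH)⟩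

end Pool.Agent.Results.MP_f37147_nt.FractionalParts
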